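import Pool.Agent.R249.AN.Weyl
import Pool.Agent.Y249.SU.Bump

/-! The set is a set of uniqueness; the lower bound of the Hausdorff measure. -/

set_option autoImplicit false

open MeasureTheory Set Filter Topology
open scoped ENNReal

namespace Pool.Agent.R249.AN

open Pool.Agent.Y249.SU (E E_add lam exists_gamma)

lemma lam_int (γ : ℤ → ℂ) (x : ℝ) (m : ℤ) : lam γ (x + m) = lam γ x := by
  unfold lam
  congr 1
  ext j
  have : E j (m : ℝ) = 1 := by
    rw [E]
    have : (2 * (Real.pi : ℂ) * Complex.I * (j : ℂ) * ((m : ℝ) : ℂ)) =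
        ((j * m : ℤ) : ℂ) * (2 * Real.pi * Complex.I) := by
      push_cast
      ring
    rw [this, Complex.exp_int_mul_two_pi_mul_I]
  rw [E_add, this, mul_one]

/-- `KK a` is a set of uniqueness -/
theorem unique_KK {a : ℕ → ℕ} (ha : StrictMono a) {c : ℤ → ℂ}
    (hc : ∀ x : ℝ, (∀ m : ℤ, x + (m : ℝ) ∉ KK a) →
      Tendsto (fun N : ℕ => Pool.Agent.Y249.SU.S c N x) atTop (𝓝 0)) (n : ℤ) : c n = 0 := by
  obtain ⟨γ, hγ, hγ0, hγ1⟩ := exists_gamma
  have hp : (0 : ℝ) < 2 ^ (a 0) := by positivity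
  refine Pool.Agent.Y249.SU.uniqueness (K := KK a) (M := fun k => 2 ^ (a k)) ?_ hγ hγ0 ?_
    (a := 1 / 2 / 2 ^ (a 0)) (b := 1 / 2 ^ (a 0)) ?_ ?_ hc n
  · have h1 : Tendsto (fun k : ℕ => ((2 : ℤ) ^ k)) atTop atTop :=
      tendsto_pow_atTop_atTop_of_one_lt (by norm_num)
    exact h1.comp ha.tendsto_atTop
  · intro x hx k
    have h1 := hx.2
    rw [mem_iInter₂] at h1
    have h2 := h1 k ⌊(2 : ℝ) ^ (a k) * x⌋
    simp only [mem_ofPred_eq] at h2
    have h3 : ((((2 : ℤ) ^ (a k) : ℤ)) : ℝ) = 2 ^ (a k) := by push_cast; rfl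
    rw [h3]
    have h4 : (2 : ℝ) ^ (a k) * x = Int.fract ((2 : ℝ) ^ (a k) * x) + ⌊(2 : ℝ) ^ (a k) * x⌋ :=
      (Int.fract_add_floor _).symm
    rw [h4, lam_int]
    refine hγ1 _ ⟨Int.fract_nonneg _, ?_⟩
    by_contra hcon
    push Not at hcon
    apply h2
    have h5 := Int.fract_lt_one ((2 : ℝ) ^ (a k) * x)
    constructor <;> linarith
  · gcongr
    norm_num
  · intro x hx m hm
    have h1 := hm.2
    rw [mem_iInter₂] at h1
    have h2 := h1 0 (2 ^ (a 0) * m)
    simp only [mem_ofPred_eq] at h2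
    apply h2
    have h3 := hx.1
    have h4 := hx.2
    rw [div_lt_iff₀ hp] at h3
    rw [lt_div_iff₀ hp] at h4
    push_cast
    constructor
    · rw [mul_add]; linarith
    · rw [mul_add]; linarith

/-- the choice of the positions -/
lemma exists_positions {φ : ℝ → ℝ} (hpos : ∀ r : ℝ, 0 < r → 0 < φ r)
    (hlim : Tendsto (fun r : ℝ => r / φ r) (𝓝[>] (0 : ℝ)) (𝓝 0)) :
    ∃ a : ℕ → ℕ, StrictMono a ∧ (∀ k, 16 ^ (k + 1) ≤ a k) ∧
      ∀ j : ℕ, ∀ r : ℝ, 0 < r → r < 1 / 2 ^ (a j) → 2 ^ (j + 3) * r ≤ φ r := by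
  have h1 : ∀ j : ℕ, ∃ n : ℕ, ∀ r : ℝ, 0 < r → r < 1 / 2 ^ n → 2 ^ (j + 3) * r ≤ φ r := by
    intro j
    have h2 : ∀ᶠ r in 𝓝[>] (0 : ℝ), r / φ r < 1 / 2 ^ (j + 3) :=
      hlim.eventually_lt_const (by positivity)
    rw [eventually_nhdsWithin_iff, Metric.eventually_nhds_iff] at h2
    obtain ⟨ε, hε, h3⟩ := h2
    obtain ⟨n, hn⟩ := exists_pow_lt_of_lt_one hε (by norm_num : (1 / 2 : ℝ) < 1)
    refine ⟨n, fun r hr hr2 => ?_⟩
    have h4 : dist r 0 < ε := by
      rw [Real.dist_eq, sub_zero, abs_of_pos hr]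
      refine hr2.trans ?_
      rwa [div_pow, one_pow] at hn
    have h5 := h3 h4 hr
    rw [div_lt_iff₀ (hpos r hr)] at h5
    have h6 : (0 : ℝ) < 2 ^ (j + 3) := by positivity
    calc (2 : ℝ) ^ (j + 3) * r ≤ 2 ^ (j + 3) * (1 / 2 ^ (j + 3) * φ r) := by gcongr
      _ = φ r := by field_simp
  choose n hn using h1
  refine ⟨fun j => ∑ i ∈ Finset.range (j + 1), n i + 16 ^ (j + 1), ?_, fun k => ?_, fun j r hr hr2 => ?_⟩
  · apply strictMono_nat_of_lt_succ
    intro j
    rw [Finset.sum_range_succ _ (j + 1), pow_succ 16 (j + 1)]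
    have : 0 < 16 ^ (j + 1) := by positivity
    omega
  · exact Nat.le_add_left _ _
  · refine hn j r hr (hr2.trans_le ?_)
    have h2 : n j ≤ ∑ i ∈ Finset.range (j + 1), n i + 16 ^ (j + 1) := by
      refine le_trans ?_ (Nat.le_add_right _ _)
      exact Finset.single_le_sum (f := n) (fun _ _ => Nat.zero_le _)
        (Finset.mem_range.mpr (Nat.lt_succ_self j))
    apply one_div_le_one_div_of_le (by positivity)
    exact pow_le_pow_right₀ (by norm_num) h2

/-- the mass distribution principle -/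
theorem mu_le_mkMetric {φ : ℝ → ℝ} {a : ℕ → ℕ} (ha : StrictMono a)
    (ha16 : ∀ k, 16 ^ (k + 1) ≤ a k)
    (hφ : ∀ j : ℕ, ∀ r : ℝ, 0 < r → r < 1 / 2 ^ (a j) → 2 ^ (j + 3) * r ≤ φ r) :
    mu (range a) ≤ Measure.mkMetric (fun r : ℝ≥0∞ => ENNReal.ofReal (φ r.toReal)) := by
  refine Measure.le_mkMetric _ _ (ENNReal.ofReal (1 / 2 ^ (a 0) / 2)) ?_ ?_
  · rw [ENNReal.ofReal_pos]
    positivity
  · intro s hs
    rcases s.eq_empty_or_nonempty with rfl | ⟨x0, hx0⟩
    · simp
    have hfin : Metric.ediam s ≠ ⊤ := (hs.trans_lt ENNReal.ofReal_lt_top).ne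
    set r := (Metric.ediam s).toReal with hr
    have hr0 : 0 ≤ r := ENNReal.toReal_nonneg
    have hr1 : r < 1 / 2 ^ (a 0) := by
      have h1 : r ≤ 1 / 2 ^ (a 0) / 2 := by
        rw [hr]
        exact ENNReal.toReal_le_of_le_ofReal (by positivity) hs
      have h2 : (0 : ℝ) < 1 / 2 ^ (a 0) := by positivity
      linarith
    have hsub : s ⊆ Icc (x0 - r) (x0 + r) := by
      intro y hy
      have h1 : edist y x0 ≤ Metric.ediam s := Metric.edist_le_ediam_of_mem hy hx0
      have h2 : dist y x0 ≤ r := by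
        rw [dist_edist]
        exact ENNReal.toReal_mono hfin h1
      rw [Real.dist_eq, abs_le] at h2
      constructor <;> linarith [h2.1, h2.2]
    have key : ∀ k : ℕ, mu (range a) s ≤ ENNReal.ofReal (2 ^ k * (2 * r + 1 / 2 ^ (a k))) := by
      intro k
      refine (measure_mono hsub).trans ?_
      refine (mu_le' ha k (E' := Icc (x0 - r) (x0 + r + 1 / 2 ^ (a k))) measurableSet_Icc ?_).trans ?_
      · rintro y ⟨h1, h2⟩ t ht0 ht1
        exact ⟨by linarith, by linarith⟩
      · rw [Real.volume_Icc]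
        have h2 : (2 : ℝ≥0∞) ^ k = ENNReal.ofReal (2 ^ k) := by
          rw [ENNReal.ofReal_pow (by norm_num)]
          simp
        rw [h2, ← ENNReal.ofReal_mul (by positivity)]
        apply ENNReal.ofReal_le_ofReal
        apply le_of_eq
        ring
    rcases hr0.eq_or_lt with h0 | h0
    · -- a point
      have h1 : mu (range a) s ≤ 0 := by
        have hlim : Tendsto (fun k : ℕ => ENNReal.ofReal ((1 / 2) ^ k)) atTop
            (𝓝 (ENNReal.ofReal 0)) :=
          ENNReal.tendsto_ofReal (tendsto_pow_atTop_nhds_zero_of_lt_one (by norm_num)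
            (by norm_num))
        rw [ENNReal.ofReal_zero] at hlim
        refine ge_of_tendsto' hlim fun k => (key k).trans (ENNReal.ofReal_le_ofReal ?_)
        rw [← h0, mul_zero, zero_add]
        have h2 : k + k ≤ a k := by
          have h3 : k < 16 ^ k := Nat.lt_pow_self (by norm_num)
          have h4 := ha16 k
          rw [pow_succ] at h4
          omega
        calc (2 : ℝ) ^ k * (1 / 2 ^ (a k)) ≤ 2 ^ k * (1 / 2 ^ (k + k)) := by
              gcongr
              norm_num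
          _ = (1 / 2) ^ k := by
              rw [pow_add, div_pow, one_pow]
              field_simp
      exact h1.trans bot_le
    · -- positive diameter
      have hex : ∃ k, 1 / (2 : ℝ) ^ (a k) ≤ r := by
        obtain ⟨n, hn⟩ := exists_pow_lt_of_lt_one h0 (by norm_num : (1 / 2 : ℝ) < 1)
        refine ⟨n, ?_⟩
        rw [div_pow, one_pow] at hn
        refine le_trans ?_ hn.le
        apply one_div_le_one_div_of_le (by positivity)
        exact pow_le_pow_right₀ (by norm_num) (ha.id_le n)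
      classical
      have hk0 : Nat.find hex ≠ 0 := by
        intro h
        have := Nat.find_spec hex
        rw [h] at this
        linarith
      obtain ⟨j, hj⟩ : ∃ j, Nat.find hex = j + 1 := ⟨Nat.find hex - 1, by omega⟩
      have h1 : ¬ 1 / (2 : ℝ) ^ (a j) ≤ r := Nat.find_min hex (by omega)
      push Not at h1
      have h2 : 1 / (2 : ℝ) ^ (a (j + 1)) ≤ r := by
        have := Nat.find_spec hex
        rwa [hj] at this
      refine (key (j + 1)).trans (ENNReal.ofReal_le_ofReal ?_)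
      refine le_trans ?_ (hφ j r h0 h1)
      calc (2 : ℝ) ^ (j + 1) * (2 * r + 1 / 2 ^ (a (j + 1))) ≤ 2 ^ (j + 1) * (2 * r + r) := by
            gcongr
        _ ≤ 2 ^ (j + 1) * (4 * r) := by gcongr; linarith
        _ = 2 ^ (j + 3) * r := by ring

end Pool.Agent.R249.AN
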