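import Mathlib

/-!
The measure of the set of all `x` whose binary digits at the positions `a 0 < a 1 < ...` vanish.
-/

set_option autoImplicit false

open MeasureTheory Set Filter Topology
open scoped ENNReal

namespace Pool.Agent.R249.AN

/-- the `n`-th binary digit (`n = 0, 1, ...`), as an integer -/
noncomputable def di (n : ℕ) (x : ℝ) : ℤ := ⌊(2 : ℝ) ^ (n + 1) * x⌋ % 2

lemma di_cases (n : ℕ) (x : ℝ) : di n x = 0 ∨ di n x = 1 := by
  unfold di
  omega

lemma di_nonneg (n : ℕ) (x : ℝ) : (0 : ℝ) ≤ di n x := by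
  rcases di_cases n x with h | h <;> rw [h] <;> norm_num

lemma di_le_one (n : ℕ) (x : ℝ) : (di n x : ℝ) ≤ 1 := by
  rcases di_cases n x with h | h <;> rw [h] <;> norm_num

lemma measurable_di (n : ℕ) : Measurable fun x => (di n x : ℝ) := by
  unfold di
  have h1 : Measurable fun x : ℝ => ⌊(2 : ℝ) ^ (n + 1) * x⌋ :=
    Int.measurable_floor.comp (measurable_const.mul measurable_id)
  have h2 : Measurable fun z : ℤ => ((z % 2 : ℤ) : ℝ) := measurable_from_top
  exact h2.comp h1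

lemma floor_succ (n : ℕ) (x : ℝ) : ⌊(2 : ℝ) ^ (n + 1) * x⌋ = 2 * ⌊(2 : ℝ) ^ n * x⌋ + di n x := by
  unfold di
  have h1 : ⌊(2 : ℝ) ^ (n + 1) * x⌋ / 2 = ⌊(2 : ℝ) ^ n * x⌋ := by
    have e : (2 : ℝ) ^ n * x = ((2 : ℝ) ^ (n + 1) * x) / ((2 : ℕ) : ℝ) := by
      rw [pow_succ]
      push_cast
      ring
    rw [e, Int.floor_div_natCast]
    rfl
  omega

lemma sum_digits (N : ℕ) (x : ℝ) :
    ∑ n ∈ Finset.range N, (di n x : ℝ) / 2 ^ (n + 1) = (⌊(2 : ℝ) ^ N * x⌋ : ℝ) / 2 ^ N - ⌊x⌋ := by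
  induction N with
  | zero => simp
  | succ N ih =>
    rw [Finset.sum_range_succ, ih, floor_succ]
    push_cast
    rw [pow_succ]
    field_simp
    ring

lemma hasSum_two : HasSum (fun n : ℕ => (1 : ℝ) / 2 ^ (n + 1)) 1 := by
  have h := (hasSum_geometric_of_lt_one (r := (1 / 2 : ℝ)) (by norm_num) (by norm_num)).mul_left
    (1 / 2)
  have e1 : (fun n : ℕ => (1 : ℝ) / 2 ^ (n + 1)) = fun n : ℕ => 1 / 2 * (1 / 2 : ℝ) ^ n := by
    funext n
    rw [pow_succ, div_pow, one_pow]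
    field_simp
  have e2 : (1 : ℝ) = 1 / 2 * (1 - 1 / 2)⁻¹ := by norm_num
  rw [← e2] at h
  rw [e1]
  exact h

lemma summable_c {c : ℕ → ℝ} (h0 : ∀ n, 0 ≤ c n) (h1 : ∀ n, c n ≤ 1) :
    Summable fun n : ℕ => c n / 2 ^ (n + 1) := by
  refine Summable.of_nonneg_of_le (fun n => ?_) (fun n => ?_) hasSum_two.summable
  · have := h0 n
    positivity
  · have := h1 n
    gcongr

/-- tails of binary series -/
lemma tail_bound {c : ℕ → ℝ} (h0 : ∀ n, 0 ≤ c n) (h1 : ∀ n, c n ≤ 1) (m : ℕ) :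
    0 ≤ ∑' n : ℕ, c (n + m) / 2 ^ (n + m + 1) ∧
      ∑' n : ℕ, c (n + m) / 2 ^ (n + m + 1) ≤ 1 / 2 ^ m := by
  constructor
  · refine tsum_nonneg fun n => ?_
    have := h0 (n + m)
    positivity
  · have h := hasSum_two.mul_left ((1 : ℝ) / 2 ^ m)
    rw [mul_one] at h
    rw [← h.tsum_eq]
    refine Summable.tsum_le_tsum (fun n => ?_) ?_ h.summable
    · have := h1 (n + m)
      rw [div_mul_div_comm, one_mul, ← pow_add]
      have e : m + (n + 1) = n + m + 1 := by ring
      rw [e]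
      gcongr
    · exact (summable_nat_add_iff m).mpr (summable_c h0 h1)

lemma hasSum_digits {x : ℝ} (h0 : 0 ≤ x) (h1 : x < 1) :
    HasSum (fun n : ℕ => (di n x : ℝ) / 2 ^ (n + 1)) x := by
  have hs := summable_c (c := fun n => (di n x : ℝ)) (fun n => di_nonneg n x)
    (fun n => di_le_one n x)
  have hlim := hs.hasSum.tendsto_sum_nat
  have hfl : ⌊x⌋ = 0 := by
    rw [Int.floor_eq_iff]
    norm_num
    exact ⟨h0, h1⟩
  have hlim2 : Tendsto (fun N : ℕ => ∑ n ∈ Finset.range N, (di n x : ℝ) / 2 ^ (n + 1)) atTop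
      (𝓝 x) := by
    simp_rw [sum_digits, hfl]
    have hz : Tendsto (fun N : ℕ => x - 1 / (2 : ℝ) ^ N) atTop (𝓝 x) := by
      have h3 := (tendsto_pow_atTop_nhds_zero_of_lt_one (r := (1 / 2 : ℝ)) (by norm_num)
        (by norm_num)).const_sub x
      rw [sub_zero] at h3
      refine h3.congr fun N => ?_
      rw [div_pow, one_pow]
    refine tendsto_of_tendsto_of_tendsto_of_le_of_le hz tendsto_const_nhds ?_ ?_
    · intro N
      have hp : (0 : ℝ) < 2 ^ N := by positivity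
      have := Int.lt_floor_add_one ((2 : ℝ) ^ N * x)
      simp only
      rw [Int.cast_zero, sub_zero, sub_le_iff_le_add, ← add_div, le_div_iff₀ hp]
      linarith
    · intro N
      have hp : (0 : ℝ) < 2 ^ N := by positivity
      have := Int.floor_le ((2 : ℝ) ^ N * x)
      simp only
      rw [Int.cast_zero, sub_zero, div_le_iff₀ hp]
      linarith
  have h5 := hs.hasSum
  rw [tendsto_nhds_unique hlim hlim2] at h5
  exact h5

/-- delete the digits at the positions in `A` -/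
noncomputable def kd (A : Set ℕ) (n : ℕ) (x : ℝ) : ℝ := by
  classical exact if n ∈ A then 0 else di n x

/-- the deleted digits -/
noncomputable def dd (A : Set ℕ) (n : ℕ) (x : ℝ) : ℝ := by
  classical exact if n ∈ A then di n x else 0

lemma kd_nonneg (A : Set ℕ) (n : ℕ) (x : ℝ) : 0 ≤ kd A n x := by
  unfold kd
  split_ifs
  · exact le_rfl
  · exact di_nonneg n x

lemma kd_le_one (A : Set ℕ) (n : ℕ) (x : ℝ) : kd A n x ≤ 1 := by
  unfold kd
  split_ifs
  · exact zero_le_one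
  · exact di_le_one n x

lemma dd_nonneg (A : Set ℕ) (n : ℕ) (x : ℝ) : 0 ≤ dd A n x := by
  unfold dd
  split_ifs
  · exact di_nonneg n x
  · exact le_rfl

lemma dd_le_one (A : Set ℕ) (n : ℕ) (x : ℝ) : dd A n x ≤ 1 := by
  unfold dd
  split_ifs
  · exact di_le_one n x
  · exact zero_le_one

lemma kd_add_dd (A : Set ℕ) (n : ℕ) (x : ℝ) : kd A n x + dd A n x = di n x := by
  unfold kd dd
  split_ifs <;> simp

lemma measurable_kd (A : Set ℕ) (n : ℕ) : Measurable (kd A n) := by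
  unfold kd
  by_cases h : n ∈ A
  · simp only [h, if_true]
    exact measurable_const
  · simp only [h, if_false]
    exact measurable_di n

/-- the map deleting the digits at the positions in `A` -/
noncomputable def gm (A : Set ℕ) (x : ℝ) : ℝ := ∑' n : ℕ, kd A n x / 2 ^ (n + 1)

lemma summable_kd (A : Set ℕ) (x : ℝ) : Summable fun n : ℕ => kd A n x / 2 ^ (n + 1) :=
  summable_c (fun n => kd_nonneg A n x) (fun n => kd_le_one A n x)

lemma summable_dd (A : Set ℕ) (x : ℝ) : Summable fun n : ℕ => dd A n x / 2 ^ (n + 1) :=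
  summable_c (fun n => dd_nonneg A n x) (fun n => dd_le_one A n x)

lemma measurable_gm (A : Set ℕ) : Measurable (gm A) := by
  refine measurable_of_tendsto_metrizable
    (f := fun (N : ℕ) (x : ℝ) => ∑ n ∈ Finset.range N, kd A n x / 2 ^ (n + 1)) ?_ ?_
  · intro N
    refine Finset.measurable_fun_sum _ fun n _ => ?_
    exact (measurable_kd A n).div_const _
  · rw [tendsto_pi_nhds]
    intro x
    exact (summable_kd A x).hasSum.tendsto_sum_nat

lemma gm_nonneg (A : Set ℕ) (x : ℝ) : 0 ≤ gm A x := by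
  refine tsum_nonneg fun n => ?_
  have := kd_nonneg A n x
  positivity

lemma gm_le_one (A : Set ℕ) (x : ℝ) : gm A x ≤ 1 := by
  have := (tail_bound (c := fun n => kd A n x) (fun n => kd_nonneg A n x)
    (fun n => kd_le_one A n x) 0).2
  unfold gm
  simpa using this

/-- the positions below `m` -/
noncomputable def pos (A : Set ℕ) (m : ℕ) : Finset ℕ := by
  classical exact (Finset.range m).filter (· ∈ A)

/-- the decomposition of `x` -/
lemma decomp (A : Set ℕ) {x : ℝ} (h0 : 0 ≤ x) (h1 : x < 1) (m : ℕ) :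
    ∃ S ∈ (pos A m).powerset, ∃ t : ℝ, 0 ≤ t ∧ t ≤ 1 / 2 ^ m ∧
      x - ∑ n ∈ S, (1 : ℝ) / 2 ^ (n + 1) = gm A x + t := by
  classical
  set S := (pos A m).filter (fun n => di n x = 1) with hS
  refine ⟨S, Finset.mem_powerset.mpr (Finset.filter_subset _ _),
    ∑' n : ℕ, dd A (n + m) x / 2 ^ (n + m + 1), ?_, ?_, ?_⟩
  · exact (tail_bound (c := fun n => dd A n x) (fun n => dd_nonneg A n x)
      (fun n => dd_le_one A n x) m).1
  · exact (tail_bound (c := fun n => dd A n x) (fun n => dd_nonneg A n x)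
      (fun n => dd_le_one A n x) m).2
  · have e1 : x = gm A x + ∑' n : ℕ, dd A n x / 2 ^ (n + 1) := by
      unfold gm
      rw [← (summable_kd A x).tsum_add (summable_dd A x)]
      rw [← (hasSum_digits h0 h1).tsum_eq]
      refine tsum_congr fun n => ?_
      rw [← add_div, (hasSum_digits h0 h1).tsum_eq, kd_add_dd]
    have e2 : ∑' n : ℕ, dd A n x / 2 ^ (n + 1) = ∑ n ∈ Finset.range m, dd A n x / 2 ^ (n + 1) +
        ∑' n : ℕ, dd A (n + m) x / 2 ^ (n + m + 1) :=
      ((summable_dd A x).sum_add_tsum_nat_add m).symm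
    have e3 : ∑ n ∈ Finset.range m, dd A n x / 2 ^ (n + 1) = ∑ n ∈ S, (1 : ℝ) / 2 ^ (n + 1) := by
      rw [hS, Finset.sum_filter, pos, Finset.sum_filter]
      refine Finset.sum_congr rfl fun n _ => ?_
      unfold dd
      by_cases h : n ∈ A
      · rcases di_cases n x with h2 | h2
        · simp [h, h2]
        · simp [h, h2]
      · simp [h]
    rw [e2, e3] at e1
    linarith

/-- the measure -/
noncomputable def mu (A : Set ℕ) : Measure ℝ := (volume.restrict (Ico (0 : ℝ) 1)).map (gm A)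

instance (A : Set ℕ) : IsProbabilityMeasure (mu A) := by
  constructor
  unfold mu
  rw [Measure.map_apply (measurable_gm A) MeasurableSet.univ]
  simp

/-- the main estimate -/
theorem mu_le (A : Set ℕ) (m : ℕ) {E E' : Set ℝ} (hE : MeasurableSet E)
    (h : ∀ y ∈ E, ∀ t : ℝ, 0 ≤ t → t ≤ 1 / 2 ^ m → y + t ∈ E') :
    mu A E ≤ 2 ^ (pos A m).card * volume E' := by
  classical
  unfold mu
  rw [Measure.map_apply (measurable_gm A) hE, Measure.restrict_apply (measurable_gm A hE)]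
  have hsub : gm A ⁻¹' E ∩ Ico (0 : ℝ) 1 ⊆ ⋃ S ∈ (pos A m).powerset,
      (fun x : ℝ => x + (-∑ n ∈ S, (1 : ℝ) / 2 ^ (n + 1))) ⁻¹' E' := by
    rintro x ⟨hx, h0, h1⟩
    obtain ⟨S, hS, t, ht0, ht1, he⟩ := decomp A h0 h1 m
    rw [mem_iUnion₂]
    refine ⟨S, hS, ?_⟩
    rw [mem_preimage, ← sub_eq_add_neg, he]
    exact h _ hx t ht0 ht1
  refine (measure_mono hsub).trans ((measure_biUnion_finset_le _ _).trans ?_)
  simp_rw [measure_preimage_add_right]
  rw [Finset.sum_const, Finset.card_powerset, nsmul_eq_mul]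
  push_cast
  exact le_rfl

lemma card_pos {a : ℕ → ℕ} (ha : StrictMono a) (k : ℕ) : (pos (range a) (a k)).card ≤ k := by
  classical
  have : pos (range a) (a k) ⊆ (Finset.range k).image a := by
    intro n hn
    unfold pos at hn
    rw [Finset.mem_filter, Finset.mem_range] at hn
    obtain ⟨h1, j, rfl⟩ := hn
    rw [Finset.mem_image]
    exact ⟨j, Finset.mem_range.mpr (ha.lt_iff_lt.mp h1), rfl⟩
  calc _ ≤ ((Finset.range k).image a).card := Finset.card_le_card this
    _ ≤ (Finset.range k).card := Finset.card_image_le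
    _ = k := Finset.card_range k

theorem mu_le' {a : ℕ → ℕ} (ha : StrictMono a) (k : ℕ) {E E' : Set ℝ} (hE : MeasurableSet E)
    (h : ∀ y ∈ E, ∀ t : ℝ, 0 ≤ t → t ≤ 1 / 2 ^ (a k) → y + t ∈ E') :
    mu (range a) E ≤ 2 ^ k * volume E' := by
  refine (mu_le (range a) (a k) hE h).trans ?_
  gcongr
  · norm_num
  · exact card_pos ha k

/-- the closed set -/
def KK (a : ℕ → ℕ) : Set ℝ :=
  Icc (0 : ℝ) 1 ∩ ⋂ (k : ℕ) (m : ℤ), {x | 2 ^ (a k) * x ∉ Ioo ((m : ℝ) + 1 / 2) (m + 1)}

lemma isClosed_KK (a : ℕ → ℕ) : IsClosed (KK a) := by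
  refine isClosed_Icc.inter (isClosed_iInter fun k => isClosed_iInter fun m => ?_)
  have : {x : ℝ | 2 ^ (a k) * x ∉ Ioo ((m : ℝ) + 1 / 2) (m + 1)} =
      ((fun x : ℝ => 2 ^ (a k) * x) ⁻¹' Ioo ((m : ℝ) + 1 / 2) (m + 1))ᶜ := rfl
  rw [this]
  exact (isOpen_Ioo.preimage (by fun_prop)).isClosed_compl

lemma gm_mem_KK (a : ℕ → ℕ) (x : ℝ) : gm (range a) x ∈ KK a := by
  refine ⟨⟨gm_nonneg _ _, gm_le_one _ _⟩, ?_⟩
  rw [mem_iInter₂]
  intro k m
  simp only [mem_ofPred_eq]
  have e1 : gm (range a) x = ∑ n ∈ Finset.range (a k + 1), kd (range a) n x / 2 ^ (n + 1) +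
      ∑' n : ℕ, kd (range a) (n + (a k + 1)) x / 2 ^ (n + (a k + 1) + 1) :=
    ((summable_kd (range a) x).sum_add_tsum_nat_add (a k + 1)).symm
  have hk : kd (range a) (a k) x = 0 := by
    unfold kd
    simp
  rw [Finset.sum_range_succ, hk, zero_div, add_zero] at e1
  obtain ⟨h1, h2⟩ := tail_bound (c := fun n => kd (range a) n x)
    (fun n => kd_nonneg _ n x) (fun n => kd_le_one _ n x) (a k + 1)
  -- the integer part
  obtain ⟨z, hz⟩ : ∃ z : ℤ, (2 : ℝ) ^ (a k) * ∑ n ∈ Finset.range (a k),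
      kd (range a) n x / 2 ^ (n + 1) = z := by
    classical
    refine ⟨∑ n ∈ Finset.range (a k), (if n ∈ range a then 0 else di n x) * 2 ^ (a k - n - 1), ?_⟩
    rw [Finset.mul_sum]
    push_cast
    refine Finset.sum_congr rfl fun n hn => ?_
    rw [Finset.mem_range] at hn
    have e : a k = (a k - n - 1) + (n + 1) := by omega
    have e2 : (2 : ℝ) ^ (a k) = 2 ^ (a k - n - 1) * 2 ^ (n + 1) := by
      rw [← pow_add]
      congr 1
    rw [e2]
    unfold kd
    by_cases h : n ∈ range a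
    · simp only [h, if_true]
      simp
    · simp only [h, if_false]
      field_simp
  intro hmem
  rw [e1, mul_add, hz] at hmem
  set T := ∑' n : ℕ, kd (range a) (n + (a k + 1)) x / 2 ^ (n + (a k + 1) + 1) with hT
  have h3 : 0 ≤ (2 : ℝ) ^ (a k) * T := by positivity
  have h4 : (2 : ℝ) ^ (a k) * T ≤ 1 / 2 := by
    calc (2 : ℝ) ^ (a k) * T ≤ 2 ^ (a k) * (1 / 2 ^ (a k + 1)) := by gcongr
      _ = 1 / 2 := by rw [pow_succ]; field_simp
  have h5 := hmem.1
  have h6 := hmem.2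
  have h7 : (m : ℝ) < z := by linarith
  have h8 : (z : ℝ) < m + 1 := by linarith
  have h9 : m < z := by exact_mod_cast h7
  have h10 : z < m + 1 := by exact_mod_cast h8
  omega

lemma mu_KK (a : ℕ → ℕ) : mu (range a) (KK a)ᶜ = 0 := by
  unfold mu
  rw [Measure.map_apply (measurable_gm _) (isClosed_KK a).measurableSet.compl]
  have : gm (range a) ⁻¹' (KK a)ᶜ = ∅ := by
    ext x
    simp only [mem_preimage, mem_compl_iff, mem_empty_iff_false, iff_false, not_not]
    exact gm_mem_KK a x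
  rw [this]
  simp

end Pool.Agent.R249.AN
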