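import Pool.Agent.R249.AN.Meas
import Pool.Agent.H493R3.Digits

/-! Almost every point of the measure is absolutely normal: Weyl sums. -/

set_option autoImplicit false

open MeasureTheory Set Filter Topology
open scoped ENNReal

namespace Pool.Agent.R249.AN

open Pool.Agent.H493R3 (ee ee_norm ee_add ee_neg ee_int)

/-- the Weyl sums -/
noncomputable def T (b h N : ℕ) (x : ℝ) : ℂ := ∑ j ∈ Finset.range N, ee (h * (x * (b : ℝ) ^ j))

lemma continuous_T (b h N : ℕ) : Continuous (T b h N) := by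
  unfold T ee
  fun_prop

lemma ee_lip (x y : ℝ) : ‖ee x - ee y‖ ≤ 7 * |x - y| := by
  have h1 : ee x - ee y = ee y * (ee (x - y) - 1) := by
    rw [mul_sub, mul_one, ← ee_add]; congr 2; ring
  have h2 : ee (x - y) = Complex.exp (Complex.I * ((2 * Real.pi * (x - y) : ℝ) : ℂ)) := by
    unfold ee
    congr 1
    push_cast; ring
  rw [h1, norm_mul, ee_norm, one_mul, h2]
  refine (Real.norm_exp_I_mul_ofReal_sub_one_le).trans ?_
  rw [Real.norm_eq_abs, abs_mul, abs_of_pos (by positivity : 0 < 2 * Real.pi)]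
  have h3 := Real.pi_lt_d2
  have h4 := abs_nonneg (x - y)
  nlinarith

lemma geom_le (b : ℕ) (hb : 2 ≤ b) (M : ℕ) : ∑ j ∈ Finset.range M, (b : ℝ) ^ j ≤ (b : ℝ) ^ M := by
  have hb2 : (2 : ℝ) ≤ b := by exact_mod_cast hb
  induction M with
  | zero => simp
  | succ M ih =>
    rw [Finset.sum_range_succ, pow_succ]
    have : (0 : ℝ) ≤ (b : ℝ) ^ M := by positivity
    nlinarith

lemma T_lip {b : ℕ} (hb : 2 ≤ b) (h N : ℕ) (x y : ℝ) :
    ‖T b h N x - T b h N y‖ ≤ 7 * h * (b : ℝ) ^ N * |x - y| := by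
  unfold T
  rw [← Finset.sum_sub_distrib]
  refine (norm_sum_le _ _).trans ?_
  have h1 : ∀ j ∈ Finset.range N, ‖ee (h * (x * (b : ℝ) ^ j)) - ee (h * (y * (b : ℝ) ^ j))‖ ≤
      7 * h * |x - y| * (b : ℝ) ^ j := by
    intro j _
    refine (ee_lip _ _).trans (le_of_eq ?_)
    have : (h : ℝ) * (x * (b : ℝ) ^ j) - h * (y * (b : ℝ) ^ j) = (h * (b : ℝ) ^ j) * (x - y) := by
      ring
    rw [this, abs_mul, abs_of_nonneg (by positivity : (0 : ℝ) ≤ h * (b : ℝ) ^ j)]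
    ring
  refine (Finset.sum_le_sum h1).trans ?_
  rw [← Finset.mul_sum]
  calc 7 * h * |x - y| * ∑ j ∈ Finset.range N, (b : ℝ) ^ j ≤ 7 * h * |x - y| * (b : ℝ) ^ N := by
        gcongr
        exact geom_le b hb N
    _ = _ := by ring

lemma int_ee_zero {c : ℤ} (hc : c ≠ 0) : ∫ z in (0 : ℝ)..2, ee (c * z) = 0 := by
  have hcC : (c : ℂ) ≠ 0 := by exact_mod_cast hc
  have hpi : (2 * (Real.pi : ℂ) * Complex.I) ≠ 0 := Complex.two_pi_I_ne_zero
  have h1 : ∀ z : ℝ, ee (c * z) = Complex.exp ((2 * Real.pi * Complex.I * c) * z) := by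
    intro z; unfold ee; congr 1; push_cast; ring
  simp_rw [h1]
  rw [integral_exp_mul_complex (mul_ne_zero hpi hcC), ← h1, ← h1]
  have h2 : (c : ℝ) * 2 = ((c * 2 : ℤ) : ℝ) := by push_cast; ring
  have h3 : (c : ℝ) * 0 = ((0 : ℤ) : ℝ) := by simp
  rw [h2, h3, ee_int, ee_int, sub_self, zero_div]

lemma second_moment {b h : ℕ} (hb : 2 ≤ b) (hh : 1 ≤ h) (N : ℕ) :
    ∫ x in (0 : ℝ)..2, ‖T b h N x‖ ^ 2 = 2 * N := by
  have h1 : ∀ x : ℝ, ((‖T b h N x‖ ^ 2 : ℝ) : ℂ) = ∑ i ∈ Finset.range N, ∑ j ∈ Finset.range N,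
      ee (((h * b ^ i - h * b ^ j : ℤ) : ℝ) * x) := by
    intro x
    rw [Complex.ofReal_pow, ← Complex.mul_conj', T, map_sum, Finset.sum_mul_sum]
    refine Finset.sum_congr rfl fun i _ => Finset.sum_congr rfl fun j _ => ?_
    rw [← ee_neg, ← ee_add]
    congr 1
    push_cast
    ring
  have h2 : ((∫ x in (0 : ℝ)..2, ‖T b h N x‖ ^ 2 : ℝ) : ℂ) = 2 * N := by
    rw [← intervalIntegral.integral_ofReal]
    simp_rw [h1]
    have hcont : ∀ i j : ℕ, Continuous fun x : ℝ => ee (((h * b ^ i - h * b ^ j : ℤ) : ℝ) * x) := by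
      intro i j
      unfold ee
      fun_prop
    rw [intervalIntegral.integral_finsetSum]
    · have h3 : ∀ i ∈ Finset.range N, ∫ x in (0 : ℝ)..2, ∑ j ∈ Finset.range N,
          ee (((h * b ^ i - h * b ^ j : ℤ) : ℝ) * x) = 2 := by
        intro i hi
        rw [intervalIntegral.integral_finsetSum (fun j _ => (hcont i j).intervalIntegrable _ _)]
        rw [Finset.sum_eq_single i]
        · have : ∀ x : ℝ, ee (((h * b ^ i - h * b ^ i : ℤ) : ℝ) * x) = 1 := by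
            intro x
            have e : ((h * b ^ i - h * b ^ i : ℤ) : ℝ) * x = ((0 : ℤ) : ℝ) := by simp
            rw [e, ee_int]
          simp_rw [this]
          simp
        · intro j _ hj
          apply int_ee_zero
          intro h0
          apply hj
          have h4 : (h : ℤ) * b ^ i = h * b ^ j := by linarith
          have h5 : (b : ℤ) ^ i = b ^ j := by
            have : (h : ℤ) ≠ 0 := by exact_mod_cast (by omega : h ≠ 0)
            exact mul_left_cancel₀ this h4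
          have h6 : b ^ i = b ^ j := by exact_mod_cast h5
          exact (Nat.pow_right_injective hb h6).symm
        · intro h0
          exact absurd hi h0
      rw [Finset.sum_congr rfl h3]
      simp [mul_comm]
    · intro i _
      exact (continuous_finsetSum _ fun j _ => hcont i j).intervalIntegrable _ _
  exact_mod_cast h2

lemma cheb {b h : ℕ} (hb : 2 ≤ b) (hh : 1 ≤ h) {N : ℕ} (hN : 1 ≤ N) {δ : ℝ} (hδ : 0 < δ) :
    volume {x : ℝ | x ∈ Ioc (0 : ℝ) 2 ∧ δ * N ≤ ‖T b h N x‖} ≤ ENNReal.ofReal (2 / (δ ^ 2 * N)) := by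
  have hN0 : (0 : ℝ) < N := by exact_mod_cast hN
  have hc : Continuous fun x => ‖T b h N x‖ ^ 2 := (continuous_T b h N).norm.pow 2
  have h1 : volume {x : ℝ | x ∈ Ioc (0 : ℝ) 2 ∧ δ * N ≤ ‖T b h N x‖} =
      (volume.restrict (Ioc (0 : ℝ) 2)) {x | (δ * N) ^ 2 ≤ ‖T b h N x‖ ^ 2} := by
    have hm : MeasurableSet {x | (δ * N) ^ 2 ≤ ‖T b h N x‖ ^ 2} :=
      measurableSet_le measurable_const hc.measurable
    rw [Measure.restrict_apply hm]
    congr 1
    ext x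
    simp only [mem_inter_iff, mem_ofPred_eq]
    have : (δ * N) ^ 2 ≤ ‖T b h N x‖ ^ 2 ↔ δ * N ≤ ‖T b h N x‖ :=
      pow_le_pow_iff_left₀ (by positivity) (norm_nonneg _) two_ne_zero
    rw [this]
    exact and_comm
  rw [h1]
  have hint : Integrable (fun x => ‖T b h N x‖ ^ 2) (volume.restrict (Ioc (0 : ℝ) 2)) :=
    (hc.integrableOn_Icc).mono_set Ioc_subset_Icc_self
  have h3 := mul_meas_ge_le_integral_of_nonneg (μ := volume.restrict (Ioc (0 : ℝ) 2))
    (ae_of_all _ fun x => sq_nonneg ‖T b h N x‖) hint ((δ * N) ^ 2)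
  rw [← intervalIntegral.integral_of_le (by norm_num), second_moment hb hh] at h3
  have hfin : (volume.restrict (Ioc (0 : ℝ) 2)) {x | (δ * N) ^ 2 ≤ ‖T b h N x‖ ^ 2} ≠ ⊤ :=
    measure_ne_top _ _
  rw [← ENNReal.ofReal_toReal hfin]
  apply ENNReal.ofReal_le_ofReal
  rw [measureReal_def] at h3
  rw [le_div_iff₀ (by positivity)]
  have e : (δ * N) ^ 2 = (δ ^ 2 * N) * N := by ring
  rw [e] at h3
  have h4 : ((volume.restrict (Ioc (0 : ℝ) 2)) {x | (δ * N) ^ 2 ≤ ‖T b h N x‖ ^ 2}).toReal *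
      (δ ^ 2 * N) * N ≤ 2 * N := by
    calc _ = (δ ^ 2 * N) * N *
        ((volume.restrict (Ioc (0 : ℝ) 2)) {x | (δ * N) ^ 2 ≤ ‖T b h N x‖ ^ 2}).toReal := by ring
      _ ≤ 2 * N := by rw [← e] at h3 ⊢; exact h3
  exact le_of_mul_le_mul_right h4 hN0

/-- the bad sets -/
def bad (b h N : ℕ) (δ : ℝ) : Set ℝ := {x : ℝ | x ∈ Icc (0 : ℝ) 1 ∧ δ * N ≤ ‖T b h N x‖}

lemma mu_bad {a : ℕ → ℕ} (ha : StrictMono a) (k : ℕ) {b h : ℕ} (hb : 2 ≤ b) (hh : 1 ≤ h) {N : ℕ}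
    (hN : 1 ≤ N) {δ : ℝ} (hδ : 0 < δ) (hk : 14 * h * (b : ℝ) ^ N ≤ δ * 2 ^ (a k)) :
    mu (range a) (bad b h N δ) ≤ 2 ^ k * ENNReal.ofReal (8 / (δ ^ 2 * N)) := by
  have hN1 : (1 : ℝ) ≤ N := by exact_mod_cast hN
  have hm : MeasurableSet (bad b h N δ) :=
    measurableSet_Icc.inter (measurableSet_le measurable_const (continuous_T b h N).norm.measurable)
  set E' : Set ℝ := {0} ∪ {x : ℝ | x ∈ Ioc (0 : ℝ) 2 ∧ (δ / 2) * N ≤ ‖T b h N x‖} with hE'
  have h1 := mu_le' ha k (E' := E') hm (by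
    rintro y ⟨⟨hy0, hy1⟩, hy2⟩ t ht0 ht1
    rcases (add_nonneg hy0 ht0).eq_or_lt with h0 | h0
    · left
      rw [mem_singleton_iff]
      exact h0.symm
    · right
      have ht2 : t ≤ 1 := by
        refine ht1.trans ?_
        rw [div_le_one (by positivity)]
        exact one_le_pow₀ (by norm_num)
      refine ⟨⟨h0, by linarith⟩, ?_⟩
      have h2 := T_lip hb h N y (y + t)
      have h3 : |y - (y + t)| = t := by
        rw [sub_add_cancel_left, abs_neg, abs_of_nonneg ht0]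
      rw [h3] at h2
      have h4 : 7 * h * (b : ℝ) ^ N * t ≤ (δ / 2) * N := by
        have hp : (0 : ℝ) < 2 ^ (a k) := by positivity
        calc 7 * h * (b : ℝ) ^ N * t ≤ 7 * h * (b : ℝ) ^ N * (1 / 2 ^ (a k)) := by gcongr
          _ = (14 * h * (b : ℝ) ^ N) / 2 ^ (a k) / 2 := by ring
          _ ≤ (δ * 2 ^ (a k)) / 2 ^ (a k) / 2 := by gcongr
          _ = (δ / 2) * 1 := by field_simp
          _ ≤ (δ / 2) * N := by gcongr
      have h5 : ‖T b h N y‖ ≤ ‖T b h N y - T b h N (y + t)‖ + ‖T b h N (y + t)‖ := by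
        have := norm_add_le (T b h N y - T b h N (y + t)) (T b h N (y + t))
        rwa [sub_add_cancel] at this
      linarith)
  refine h1.trans ?_
  gcongr
  refine (measure_union_le _ _).trans ?_
  rw [Real.volume_singleton, zero_add]
  refine (cheb hb hh hN (by positivity : 0 < δ / 2)).trans (ENNReal.ofReal_le_ofReal (le_of_eq ?_))
  field_simp
  norm_num

/-- the choice of the index -/
lemma exists_index {a : ℕ → ℕ} (ha16 : ∀ k, 16 ^ (k + 1) ≤ a k) {c : ℕ} (hc : 1 ≤ c) (r : ℕ)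
    (hr : 1 ≤ r) : ∃ k, c * r ^ 4 ≤ a k ∧ 2 ^ k ≤ c * r := by
  classical
  have hex : ∃ k, c * r ^ 4 ≤ a k := by
    refine ⟨c * r ^ 4, ?_⟩
    refine le_trans ?_ (ha16 _)
    exact ((Nat.lt_pow_self (by norm_num : 1 < 16)).le).trans
      (Nat.pow_le_pow_right (by norm_num) (Nat.le_succ _))
  refine ⟨Nat.find hex, Nat.find_spec hex, ?_⟩
  rcases Nat.eq_zero_or_pos (Nat.find hex) with h0 | h0
  · rw [h0, pow_zero]
    exact Nat.one_le_iff_ne_zero.mpr (by positivity)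
  · obtain ⟨j, hj⟩ : ∃ j, Nat.find hex = j + 1 := ⟨Nat.find hex - 1, by omega⟩
    have h1 : ¬ c * r ^ 4 ≤ a j := Nat.find_min hex (by omega)
    have h2 := ha16 j
    rw [hj]
    have h3 : (2 ^ (j + 1)) ^ 4 ≤ (c * r) ^ 4 := by
      calc (2 ^ (j + 1)) ^ 4 = 16 ^ (j + 1) := by
            rw [← pow_mul, mul_comm (j + 1) 4, pow_mul]
            norm_num
        _ ≤ a j := h2
        _ ≤ c * r ^ 4 := by omega
        _ ≤ c ^ 4 * r ^ 4 := by
            gcongr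
            exact Nat.le_self_pow (by norm_num) c
        _ = (c * r) ^ 4 := by ring
    exact (Nat.pow_le_pow_iff_left (by norm_num)).mp h3

lemma summable_bad {a : ℕ → ℕ} (ha : StrictMono a) (ha16 : ∀ k, 16 ^ (k + 1) ≤ a k)
    {b h : ℕ} (hb : 2 ≤ b) (hh : 1 ≤ h) {δ : ℝ} (hδ : 0 < δ) :
    ∑' r : ℕ, mu (range a) (bad b h ((r + 1) ^ 4) δ) ≠ ⊤ := by
  obtain ⟨c, hc⟩ : ∃ c : ℕ, 14 * h * (b : ℝ) / δ + b + 1 ≤ 2 ^ c := by
    obtain ⟨c, hc⟩ := pow_unbounded_of_one_lt (14 * h * (b : ℝ) / δ + b + 1)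
      (by norm_num : (1 : ℝ) < 2)
    exact ⟨c, hc.le⟩
  have hb0 : (0 : ℝ) < b := by exact_mod_cast (by omega : 0 < b)
  have hh0 : (0 : ℝ) < h := by exact_mod_cast (by omega : 0 < h)
  have hc1 : 1 ≤ c := by
    by_contra hcon
    have : c = 0 := by omega
    rw [this, pow_zero] at hc
    have : 0 < 14 * h * (b : ℝ) / δ := by positivity
    linarith
  have hbound : ∀ r : ℕ, mu (range a) (bad b h ((r + 1) ^ 4) δ) ≤
      ENNReal.ofReal ((8 * c / δ ^ 2) * (1 / ((r : ℝ) + 1) ^ 2)) := by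
    intro r
    obtain ⟨k, hk1, hk2⟩ := exists_index ha16 hc1 (r + 1) (by omega)
    have hN : 1 ≤ (r + 1) ^ 4 := Nat.one_le_pow _ _ (by omega)
    refine (mu_bad ha k hb hh hN hδ ?_).trans ?_
    · -- 14 h b^N ≤ δ 2^(a k)
      have h1 : 14 * h * (b : ℝ) ^ ((r + 1) ^ 4) ≤ δ * (2 ^ c) ^ ((r + 1) ^ 4) := by
        obtain ⟨m, hm⟩ : ∃ m, (r + 1) ^ 4 = m + 1 := ⟨(r + 1) ^ 4 - 1, by omega⟩
        rw [hm, pow_succ, pow_succ]
        have h2 : (b : ℝ) ^ m ≤ (2 ^ c) ^ m := by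
          refine pow_le_pow_left₀ hb0.le ?_ m
          have : 0 < 14 * h * (b : ℝ) / δ := by positivity
          linarith
        have h3 : 14 * h * (b : ℝ) ≤ δ * 2 ^ c := by
          have : 14 * h * (b : ℝ) / δ ≤ 2 ^ c := by linarith
          rw [div_le_iff₀ hδ] at this
          linarith
        calc 14 * h * ((b : ℝ) ^ m * b) = (14 * h * b) * (b : ℝ) ^ m := by ring
          _ ≤ (δ * 2 ^ c) * (2 ^ c) ^ m := by gcongr
          _ = _ := by ring
      refine h1.trans ?_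
      rw [← pow_mul]
      gcongr
      norm_num
    · have h2 : (2 : ℝ≥0∞) ^ k = ENNReal.ofReal (2 ^ k) := by
        rw [ENNReal.ofReal_pow (by norm_num)]
        simp
      rw [h2, ← ENNReal.ofReal_mul (by positivity)]
      apply ENNReal.ofReal_le_ofReal
      have h3 : (2 : ℝ) ^ k ≤ c * (r + 1) := by exact_mod_cast hk2
      push_cast
      calc (2 : ℝ) ^ k * (8 / (δ ^ 2 * ((r : ℝ) + 1) ^ 4)) ≤
          (c * (r + 1)) * (8 / (δ ^ 2 * ((r : ℝ) + 1) ^ 4)) := by gcongr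
        _ = (8 * c / δ ^ 2) * (1 / ((r : ℝ) + 1) ^ 3) := by
            field_simp
        _ ≤ (8 * c / δ ^ 2) * (1 / ((r : ℝ) + 1) ^ 2) := by
            gcongr
            · linarith [(Nat.cast_nonneg r : (0 : ℝ) ≤ r)]
            · norm_num
  have hsum : Summable fun r : ℕ => (8 * c / δ ^ 2) * (1 / ((r : ℝ) + 1) ^ 2) := by
    apply Summable.mul_left
    have := (summable_nat_add_iff 1).mpr (Real.summable_one_div_nat_pow.mpr (by norm_num : 1 < 2))
    refine this.congr fun r => ?_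
    push_cast
    rfl
  have hle := ENNReal.tsum_le_tsum hbound
  rw [← ENNReal.ofReal_tsum_of_nonneg (fun r => by positivity) hsum] at hle
  exact (hle.trans_lt ENNReal.ofReal_lt_top).ne

lemma T_step (b h N N' : ℕ) (hN : N ≤ N') (x : ℝ) :
    ‖T b h N' x‖ ≤ ‖T b h N x‖ + (N' - N : ℝ) := by
  unfold T
  rw [← Finset.sum_range_add_sum_Ico _ hN]
  refine (norm_add_le _ _).trans ?_
  gcongr
  refine (norm_sum_le _ _).trans ?_
  simp_rw [ee_norm]
  rw [Finset.sum_const, Nat.card_Ico, nsmul_eq_mul, mul_one, Nat.cast_sub hN]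

lemma interp {b h : ℕ} {x : ℝ}
    (hx : ∀ l : ℕ, ∀ᶠ r : ℕ in atTop, ‖T b h ((r + 1) ^ 4) x‖ ≤
      1 / ((l : ℝ) + 1) * (((r + 1) ^ 4 : ℕ) : ℝ)) :
    Tendsto (fun M : ℕ => ‖T b h M x‖ / M) atTop (𝓝 0) := by
  rw [Metric.tendsto_atTop]
  intro ε hε
  obtain ⟨l, hl⟩ := exists_nat_one_div_lt (by positivity : 0 < ε / 2)
  obtain ⟨r0, hr0⟩ := eventually_atTop.mp (hx l)
  obtain ⟨r1, hr1⟩ := exists_nat_gt (30 / ε)
  set R := max r0 r1 with hR
  refine ⟨(R + 2) ^ 4, fun N hN => ?_⟩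
  set q := Nat.sqrt (Nat.sqrt N) with hq
  have hq1 : q ^ 4 ≤ N := by
    have h1 : q ^ 2 ≤ Nat.sqrt N := by
      rw [hq]; exact Nat.sqrt_le' _
    calc q ^ 4 = (q ^ 2) ^ 2 := by ring
      _ ≤ (Nat.sqrt N) ^ 2 := Nat.pow_le_pow_left h1 2
      _ ≤ N := Nat.sqrt_le' _
  have hq2 : N < (q + 1) ^ 4 := by
    have h1 : Nat.sqrt N < (q + 1) ^ 2 := by
      rw [hq]; exact Nat.lt_succ_sqrt' _
    calc N < (Nat.sqrt N + 1) ^ 2 := Nat.lt_succ_sqrt' _
      _ ≤ ((q + 1) ^ 2) ^ 2 := Nat.pow_le_pow_left h1 2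
      _ = (q + 1) ^ 4 := by ring
  have hqR : R + 2 ≤ q := by
    by_contra hcon
    push Not at hcon
    have : (q + 1) ^ 4 ≤ (R + 2) ^ 4 := Nat.pow_le_pow_left (by omega) 4
    omega
  obtain ⟨r, hr⟩ : ∃ r, q = r + 1 := ⟨q - 1, by omega⟩
  have hrr0 : r0 ≤ r := by
    have := le_max_left r0 r1
    omega
  have hrr1 : r1 ≤ r := by
    have := le_max_right r0 r1
    omega
  have hT := hr0 r hrr0
  have hstep := T_step b h (q ^ 4) N hq1 x
  rw [hr] at hstep hq1 hq2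
  have hq0 : (0 : ℝ) < (r : ℝ) + 1 := by positivity
  have hNr : (((r : ℝ) + 1) ^ 4) ≤ N := by exact_mod_cast hq1
  have hNr2 : (N : ℝ) < ((r : ℝ) + 1 + 1) ^ 4 := by exact_mod_cast hq2
  have hNpos : (0 : ℝ) < N := lt_of_lt_of_le (by positivity) hNr
  have hgrow : (N : ℝ) - ((r : ℝ) + 1) ^ 4 ≤ 15 * ((r : ℝ) + 1) ^ 3 := by
    set y := (r : ℝ) + 1 with hy
    have hy1 : 1 ≤ y := by rw [hy]; linarith [(Nat.cast_nonneg r : (0 : ℝ) ≤ r)]
    have e : (y + 1) ^ 4 = y ^ 4 + 4 * y ^ 3 + 6 * y ^ 2 + 4 * y + 1 := by ring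
    have h2 : y ^ 2 ≤ y ^ 3 := pow_le_pow_right₀ hy1 (by norm_num)
    have h3 : y ≤ y ^ 3 := by
      calc y = y ^ 1 := (pow_one y).symm
        _ ≤ y ^ 3 := pow_le_pow_right₀ hy1 (by norm_num)
    have h4 : 1 ≤ y ^ 3 := one_le_pow₀ hy1
    nlinarith
  have hsmall : 15 * ((r : ℝ) + 1) ^ 3 ≤ (ε / 2) * ((r : ℝ) + 1) ^ 4 := by
    have h1 : 30 / ε < (r : ℝ) + 1 := by
      have : (r1 : ℝ) ≤ r := by exact_mod_cast hrr1
      linarith
    rw [div_lt_iff₀ hε] at h1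
    have : (ε / 2) * ((r : ℝ) + 1) ^ 4 = (((r : ℝ) + 1) * ε / 2) * ((r : ℝ) + 1) ^ 3 := by ring
    rw [this]
    gcongr
    linarith
  have hfin : ‖T b h N x‖ < ε * N := by
    have h1 : ‖T b h ((r + 1) ^ 4) x‖ < (ε / 2) * ((r : ℝ) + 1) ^ 4 := by
      refine lt_of_le_of_lt hT ?_
      push_cast
      gcongr
    have h2 : (((r + 1) ^ 4 : ℕ) : ℝ) = ((r : ℝ) + 1) ^ 4 := by push_cast; ring
    rw [h2] at hstep
    calc ‖T b h N x‖ ≤ ‖T b h ((r + 1) ^ 4) x‖ + (N - ((r : ℝ) + 1) ^ 4) := hstep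
      _ < (ε / 2) * ((r : ℝ) + 1) ^ 4 + (ε / 2) * ((r : ℝ) + 1) ^ 4 := by linarith
      _ = ε * ((r : ℝ) + 1) ^ 4 := by ring
      _ ≤ ε * N := by gcongr
  rw [Real.dist_eq, sub_zero, abs_of_nonneg (by positivity), div_lt_iff₀ hNpos]
  exact hfin

/-- almost every point is absolutely normal (Weyl sums) -/
theorem ae_weyl {a : ℕ → ℕ} (ha : StrictMono a) (ha16 : ∀ k, 16 ^ (k + 1) ≤ a k) :
    ∀ᵐ x ∂(mu (range a)), ∀ b h : ℕ, 2 ≤ b → 1 ≤ h →
      Tendsto (fun M : ℕ => ‖T b h M x‖ / M) atTop (𝓝 0) := by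
  rw [ae_all_iff]
  intro b
  rw [ae_all_iff]
  intro h
  by_cases hb : 2 ≤ b
  · by_cases hh : 1 ≤ h
    · have h1 : ∀ᵐ x ∂(mu (range a)), ∀ l : ℕ, ∀ᶠ r in atTop,
          x ∉ bad b h ((r + 1) ^ 4) (1 / ((l : ℝ) + 1)) := by
        rw [ae_all_iff]
        intro l
        exact ae_eventually_notMem (summable_bad ha ha16 hb hh (by positivity))
      have h2 : ∀ᵐ x ∂(mu (range a)), x ∈ KK a := by
        rw [ae_iff]
        exact mu_KK a
      filter_upwards [h1, h2] with x hx hxK _ _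
      apply interp
      intro l
      filter_upwards [hx l] with r hr
      by_contra hcon
      push Not at hcon
      exact hr ⟨hxK.1, hcon.le⟩
    · filter_upwards with x _ hh'
      exact absurd hh' hh
  · filter_upwards with x hb'
    exact absurd hb' hb

end Pool.Agent.R249.AN
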